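import Pool.Agent.Helper96.CT.Stmts

/-!
# Sheet CT, row L5: the double star
-/

set_option autoImplicit false

namespace Pool.Agent.Helper3.CT

open SimpleGraph Pool.Agent.Helper96.CT

/-- the edges of the double star: `0 - 1`, `0 - i` for `i ≥ 3`, `1 - 2` -/
def Rr (x y : ℕ) : Prop := (x = 0 ∧ y = 1) ∨ (x = 0 ∧ 3 ≤ y) ∨ (x = 1 ∧ y = 2)

/-- the double star -/
def DS (t : ℕ) : SimpleGraph (Fin (t + 2)) where
  Adj x y := Rr x.val y.val ∨ Rr y.val x.val
  symm := ⟨fun _ _ h => h.symm⟩
  loopless := ⟨fun x h => by unfold Rr at h; omega⟩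

theorem ds_adj {t : ℕ} (x y : Fin (t + 2)) :
    (DS t).Adj x y ↔ Rr x.val y.val ∨ Rr y.val x.val := Iff.rfl

theorem leaf_unique {t : ℕ} {x y z : Fin (t + 2)} (h1 : (DS t).Adj x y) (h2 : (DS t).Adj x z)
    (hx : 2 ≤ x.val) : y = z := by
  rw [ds_adj] at h1 h2
  unfold Rr at h1 h2
  apply Fin.ext
  omega

theorem st_L5 : ST_L5 := by
  intro t ht
  refine ⟨Fin (t + 2), inferInstance, DS t, by simp, ?_, ?_, ?_, ?_⟩
  · rw [connected_iff_exists_forall_reachable]
    refine ⟨⟨0, by omega⟩, fun w => ?_⟩
    by_cases h0 : w.val = 0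
    · have : w = ⟨0, by omega⟩ := Fin.ext h0
      rw [this]
    · by_cases h2 : w.val = 2
      · have e1 : (DS t).Adj ⟨0, by omega⟩ ⟨1, by omega⟩ := by
          rw [ds_adj]; unfold Rr; simp
        have e2 : (DS t).Adj ⟨1, by omega⟩ w := Or.inl (Or.inr (Or.inr ⟨rfl, h2⟩))
        exact e1.reachable.trans e2.reachable
      · have e1 : (DS t).Adj ⟨0, by omega⟩ w := by
          by_cases h1 : w.val = 1
          · exact Or.inl (Or.inl ⟨rfl, h1⟩)
          · exact Or.inl (Or.inr (Or.inl ⟨rfl, by omega⟩))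
        exact e1.reachable
  · rw [connected_iff_exists_forall_reachable]
    refine ⟨⟨2, by omega⟩, fun w => ?_⟩
    by_cases h2 : w.val = 2
    · have : w = ⟨2, by omega⟩ := Fin.ext h2
      rw [this]
    · by_cases h1 : w.val = 1
      · have e1 : (DS t)ᶜ.Adj ⟨2, by omega⟩ ⟨3, by omega⟩ := by
          rw [compl_adj, ds_adj]
          unfold Rr
          refine ⟨by simp, by simp⟩
        have e2 : (DS t)ᶜ.Adj ⟨3, by omega⟩ w := by
          rw [compl_adj, ds_adj]
          unfold Rr
          refine ⟨fun h => ?_, by simp only; omega⟩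
          rw [← h] at h1
          simp at h1
        exact e1.reachable.trans e2.reachable
      · have e1 : (DS t)ᶜ.Adj ⟨2, by omega⟩ w := by
          rw [compl_adj, ds_adj]
          unfold Rr
          refine ⟨fun h => ?_, by simp only; omega⟩
          rw [← h] at h2
          simp at h2
        exact e1.reachable
  · intro I hI
    have m1 : ∃ a : Fin (t + 2), (a.val = 1 ∨ a.val = 2) ∧ a ∉ I := by
      by_contra hcon
      push Not at hcon
      have a1 := hcon ⟨1, by omega⟩ (Or.inl rfl)
      have a2 := hcon ⟨2, by omega⟩ (Or.inr rfl)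
      refine hI _ a1 _ a2 (by simp) ?_
      rw [ds_adj]; unfold Rr; simp
    have m2 : ∃ b : Fin (t + 2), (b.val = 0 ∨ b.val = 3) ∧ b ∉ I := by
      by_contra hcon
      push Not at hcon
      have a1 := hcon ⟨0, by omega⟩ (Or.inl rfl)
      have a2 := hcon ⟨3, by omega⟩ (Or.inr rfl)
      refine hI _ a1 _ a2 (by simp) ?_
      rw [ds_adj]; unfold Rr; simp
    obtain ⟨a, ha, haI⟩ := m1
    obtain ⟨b, hb, hbI⟩ := m2
    have hab : a ≠ b := by
      intro h
      rw [h] at ha
      omega
    have h1 : (insert a (insert b I)).card = I.card + 2 := by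
      rw [Finset.card_insert_of_notMem, Finset.card_insert_of_notMem hbI]
      rw [Finset.mem_insert]
      push Not
      exact ⟨hab, haI⟩
    have h2 := Finset.card_le_univ (insert a (insert b I))
    rw [Fintype.card_fin, h1] at h2
    omega
  · intro l hn hc
    by_contra hcon
    push Not at hcon
    match l, hn, hc, hcon with
    | a :: b :: c :: d :: e :: r, hn, hc, _ =>
      rw [List.isChain_cons_cons, List.isChain_cons_cons, List.isChain_cons_cons,
        List.isChain_cons_cons] at hc
      obtain ⟨h1, h2, h3, h4, -⟩ := hc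
      simp only [List.nodup_cons, List.mem_cons, not_or] at hn
      obtain ⟨⟨n1, n2, -⟩, ⟨n3, n4, -⟩, ⟨n5, n6, -⟩, -⟩ := hn
      have hb : b.val < 2 := by
        by_contra h
        exact n2 (leaf_unique h1.symm h2 (by omega))
      have hc' : c.val < 2 := by
        by_contra h
        exact n4 (leaf_unique h2.symm h3 (by omega))
      have hd : d.val < 2 := by
        by_contra h
        exact n6 (leaf_unique h3.symm h4 (by omega))
      have b1 : b.val ≠ c.val := fun h => n3 (Fin.ext h)
      have b2 : b.val ≠ d.val := fun h => n4 (Fin.ext h)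
      have b3 : c.val ≠ d.val := fun h => n5 (Fin.ext h)
      omega

end Pool.Agent.Helper3.CT
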